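import Mathlib

/-!
Circles, inversions, and quadratic forms in `(|x|^2, x_1, x_2, 1)`.
-/

set_option autoImplicit false

namespace Pool.Agent.Q80.MC

open Matrix

/-- A point of the plane. -/
abbrev Pt : Type := ℝ × ℝ

/-- The square of the Euclidean distance. -/
def dsq (x y : Pt) : ℝ := (x.1 - y.1) ^ 2 + (x.2 - y.2) ^ 2

/-- The circle with centre `c` and radius `r`. -/
def circ (c : Pt) (r : ℝ) : Set Pt := {x | dsq x c = r ^ 2}

/-- `C` is a circle. -/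
def IsCircle (C : Set Pt) : Prop := ∃ (c : Pt) (r : ℝ), 0 < r ∧ C = circ c r

/-- `L` is a line. -/
def IsLine (L : Set Pt) : Prop :=
  ∃ a b c : ℝ, (a ≠ 0 ∨ b ≠ 0) ∧ L = {x : Pt | a * x.1 + b * x.2 = c}

/-- The inversion with centre `c` and radius `k`: the point `x ≠ c` is mapped to the point of the
ray from `c` through `x` at distance `k ^ 2 / |x - c|` from `c`. -/
noncomputable def inversion (c : Pt) (k : ℝ) (x : Pt) : Pt :=
  (c.1 + k ^ 2 / dsq x c * (x.1 - c.1), c.2 + k ^ 2 / dsq x c * (x.2 - c.2))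

lemma dsq_pos {x c : Pt} (h : x ≠ c) : 0 < dsq x c := by
  have h1 : x.1 - c.1 ≠ 0 ∨ x.2 - c.2 ≠ 0 := by
    by_contra hcon
    rw [not_or, not_not, not_not] at hcon
    exact h (Prod.ext (sub_eq_zero.1 hcon.1) (sub_eq_zero.1 hcon.2))
  unfold dsq
  rcases h1 with h1 | h1
  · have := sq_pos_of_ne_zero h1
    positivity
  · have := sq_pos_of_ne_zero h1
    positivity

/-- the vector of a point -/
def vec (x : Pt) : Fin 4 → ℝ := ![x.1 ^ 2 + x.2 ^ 2, x.1, x.2, 1]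

/-- the cone -/
def Cone (w : Fin 4 → ℝ) : Prop := w 0 * w 3 = w 1 ^ 2 + w 2 ^ 2

lemma cone_vec (x : Pt) : Cone (vec x) := by
  simp [Cone, vec]

/-- the quadratic form -/
def qf (A : Matrix (Fin 4) (Fin 4) ℝ) (w : Fin 4 → ℝ) : ℝ := w ⬝ᵥ (A *ᵥ w)

/-- the bilinear form on the coefficient vectors of circles -/
def gm (e f : Fin 4 → ℝ) : ℝ := e 1 * f 1 + e 2 * f 2 - 2 * (e 0 * f 3 + e 3 * f 0)

lemma qf_expand (A : Matrix (Fin 4) (Fin 4) ℝ) (w : Fin 4 → ℝ) :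
    qf A w = A 0 0 * w 0 ^ 2 + (A 0 1 + A 1 0) * (w 0 * w 1) + (A 0 2 + A 2 0) * (w 0 * w 2) +
      (A 0 3 + A 3 0) * (w 0 * w 3) + A 1 1 * w 1 ^ 2 + (A 1 2 + A 2 1) * (w 1 * w 2) +
      A 2 2 * w 2 ^ 2 + (A 1 3 + A 3 1) * (w 1 * w 3) + (A 2 3 + A 3 2) * (w 2 * w 3) +
      A 3 3 * w 3 ^ 2 := by
  simp only [qf, dotProduct, mulVec, Fin.sum_univ_four]
  ring

lemma qf_smul (A : Matrix (Fin 4) (Fin 4) ℝ) (t : ℝ) (w : Fin 4 → ℝ) :
    qf A (t • w) = t ^ 2 * qf A w := by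
  rw [qf_expand, qf_expand]
  simp only [Pi.smul_apply, smul_eq_mul]
  ring

lemma qf_mulVec (A N : Matrix (Fin 4) (Fin 4) ℝ) (w : Fin 4 → ℝ) :
    qf A (N *ᵥ w) = qf (Nᵀ * A * N) w := by
  simp only [qf]
  rw [← Matrix.mulVec_mulVec, ← Matrix.mulVec_mulVec, Matrix.dotProduct_mulVec w Nᵀ,
    Matrix.vecMul_transpose]

/-- the matrix of an inversion -/
def mi (c : Pt) (m : ℝ) : Matrix (Fin 4) (Fin 4) ℝ :=
  !![c.1 ^ 2 + c.2 ^ 2, -2 * c.1 * (c.1 ^ 2 + c.2 ^ 2) + 2 * m * c.1,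
      -2 * c.2 * (c.1 ^ 2 + c.2 ^ 2) + 2 * m * c.2,
      (c.1 ^ 2 + c.2 ^ 2) ^ 2 - 2 * m * (c.1 ^ 2 + c.2 ^ 2) + m ^ 2;
    c.1, -2 * c.1 ^ 2 + m, -2 * c.1 * c.2, c.1 * (c.1 ^ 2 + c.2 ^ 2) - m * c.1;
    c.2, -2 * c.1 * c.2, -2 * c.2 ^ 2 + m, c.2 * (c.1 ^ 2 + c.2 ^ 2) - m * c.2;
    1, -2 * c.1, -2 * c.2, c.1 ^ 2 + c.2 ^ 2]

lemma vec_inversion {c x : Pt} (k : ℝ) (h : x ≠ c) :
    vec (inversion c k x) = (1 / dsq x c) • (mi c (k ^ 2) *ᵥ vec x) := by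
  have hd : dsq x c ≠ 0 := (dsq_pos h).ne'
  have hd' : (x.1 - c.1) ^ 2 + (x.2 - c.2) ^ 2 ≠ 0 := hd
  ext i
  fin_cases i
  · simp [vec, mi, inversion, Matrix.mulVec, dotProduct, Fin.sum_univ_four, dsq]
    field_simp
    ring
  · simp [vec, mi, inversion, Matrix.mulVec, dotProduct, Fin.sum_univ_four, dsq]
    field_simp
    ring
  · simp [vec, mi, inversion, Matrix.mulVec, dotProduct, Fin.sum_univ_four, dsq]
    field_simp
    ring
  · simp [vec, mi, inversion, Matrix.mulVec, dotProduct, Fin.sum_univ_four, dsq]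
    field_simp
    ring

lemma mi_mi (c : Pt) (m : ℝ) : mi c m * mi c m = m ^ 2 • (1 : Matrix (Fin 4) (Fin 4) ℝ) := by
  ext i j
  fin_cases i <;> fin_cases j <;>
    simp [mi, Matrix.mul_apply, Fin.sum_univ_four, Matrix.smul_apply] <;> ring

lemma cone_mi (c : Pt) (m : ℝ) (w : Fin 4 → ℝ) (h : Cone w) : Cone (mi c m *ᵥ w) := by
  have h' : w 0 * w 3 - w 1 ^ 2 - w 2 ^ 2 = 0 := by
    rw [h]
    ring
  simp only [Cone, mi, Matrix.mulVec, dotProduct, Fin.sum_univ_four, Matrix.of_apply,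
    Matrix.cons_val', Matrix.cons_val_zero, Matrix.cons_val_one, Matrix.cons_val,
    Matrix.empty_val']
  linear_combination m ^ 2 * h'

lemma gm_mi (c : Pt) (m : ℝ) (e f : Fin 4 → ℝ) :
    gm ((mi c m)ᵀ *ᵥ e) ((mi c m)ᵀ *ᵥ f) = m ^ 2 * gm e f := by
  simp only [gm, mi, Matrix.mulVec, dotProduct, Fin.sum_univ_four, Matrix.of_apply,
    Matrix.transpose_apply, Matrix.cons_val', Matrix.cons_val_zero, Matrix.cons_val_one,
    Matrix.cons_val, Matrix.empty_val']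
  ring

end Pool.Agent.Q80.MC
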