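import Pool.Agent.Q80.MC.Curves

/-!
The eight points lie on no good cubic and on no good quartic.
-/

set_option autoImplicit false

namespace Pool.Agent.Q80.MC

open Matrix

/-- the matrix of a circular cubic -/
def mc (u v : ℝ) (q : Fin 6 → ℝ) : Matrix (Fin 4) (Fin 4) ℝ :=
  !![0, u, v, 0; 0, q 0, q 1, q 3; 0, 0, q 2, q 4; 0, 0, 0, q 5]

/-- the affine equation of a circular cubic -/
def gc (u v : ℝ) (q : Fin 6 → ℝ) (x : Pt) : ℝ :=
  (u * x.1 + v * x.2) * (x.1 ^ 2 + x.2 ^ 2) + q 0 * x.1 ^ 2 + q 1 * (x.1 * x.2) + q 2 * x.2 ^ 2 +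
    q 3 * x.1 + q 4 * x.2 + q 5

lemma qf_mc (u v : ℝ) (q : Fin 6 → ℝ) (x : Pt) : qf (mc u v q) (vec x) = gc u v q x := by
  rw [qf_expand]
  simp [mc, vec, gc]
  ring

lemma eval_form (u v : ℝ) (q : Fin 6 → ℝ) (z : Fin 3 → ℝ) :
    MvPolynomial.eval z (circularForm u v q) =
      (u * z 0 + v * z 1) * (z 0 ^ 2 + z 1 ^ 2) +
        (q 0 * z 0 ^ 2 + q 1 * (z 0 * z 1) + q 2 * z 1 ^ 2 + q 3 * (z 0 * z 2) +
          q 4 * (z 1 * z 2) + q 5 * z 2 ^ 2) * z 2 := by
  simp [circularForm]

lemma eval_form_pt (u v : ℝ) (q : Fin 6 → ℝ) (s : ℝ) (x : Pt) :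
    MvPolynomial.eval ![s * x.1, s * x.2, s] (circularForm u v q) = s ^ 3 * gc u v q x := by
  rw [eval_form]
  simp [gc]
  ring

lemma eval_pderiv0 (u v : ℝ) (q : Fin 6 → ℝ) (z : Fin 3 → ℝ) :
    MvPolynomial.eval z (MvPolynomial.pderiv 0 (circularForm u v q)) =
      u * (3 * z 0 ^ 2 + z 1 ^ 2) + v * (2 * z 0 * z 1) +
        (2 * q 0 * z 0 + q 1 * z 1 + q 3 * z 2) * z 2 := by
  simp [circularForm, MvPolynomial.pderiv_X, Pi.single_apply]
  ring

lemma eval_pderiv1 (u v : ℝ) (q : Fin 6 → ℝ) (z : Fin 3 → ℝ) :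
    MvPolynomial.eval z (MvPolynomial.pderiv 1 (circularForm u v q)) =
      u * (2 * z 0 * z 1) + v * (z 0 ^ 2 + 3 * z 1 ^ 2) +
        (q 1 * z 0 + 2 * q 2 * z 1 + q 4 * z 2) * z 2 := by
  simp [circularForm, MvPolynomial.pderiv_X, Pi.single_apply]
  ring

lemma eval_pderiv2 (u v : ℝ) (q : Fin 6 → ℝ) (z : Fin 3 → ℝ) :
    MvPolynomial.eval z (MvPolynomial.pderiv 2 (circularForm u v q)) =
      (q 0 * z 0 ^ 2 + q 1 * (z 0 * z 1) + q 2 * z 1 ^ 2) + 2 * (q 3 * z 0 + q 4 * z 1) * z 2 +
        3 * q 5 * z 2 ^ 2 := by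
  simp [circularForm, MvPolynomial.pderiv_X, Pi.single_apply]
  ring

lemma aeval_real (F : MvPolynomial (Fin 3) ℝ) (z : Fin 3 → ℝ) :
    MvPolynomial.aeval (fun i => (z i : ℂ)) F = ((MvPolynomial.eval z F : ℝ) : ℂ) := by
  have := MvPolynomial.aeval_algebraMap_apply ℂ z F
  rw [← MvPolynomial.coe_aeval_eq_eval]
  exact this

lemma cubic_contra {u v : ℝ} {q : Fin 6 → ℝ} {l : ℝ} {e f : Fin 4 → ℝ} (hef : Meet e f)
    (h : ∀ y : Pt, gc u v q y = l * ev e y * ev f y) :
    ¬ (IsElliptic (circularForm u v q) ∨ IsAcnodal (circularForm u v q)) := by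
  obtain ⟨y, he, hf⟩ := hef.exists
  have h0 := h y
  rw [he, mul_zero, zero_mul] at h0
  -- the gradient vanishes at `y`
  have hx : u * (3 * y.1 ^ 2 + y.2 ^ 2) + v * (2 * y.1 * y.2) +
        (2 * q 0 * y.1 + q 1 * y.2 + q 3) = 0 := by
    apply lin_zero
      (b := u * (3 * y.1) + v * y.2 + q 0 - l * (e 0 * (2 * y.1) + e 1) * (f 0 * (2 * y.1) + f 1))
      (c := u - l * ((e 0 * (2 * y.1) + e 1) * f 0 + (f 0 * (2 * y.1) + f 1) * e 0))
      (d := - l * e 0 * f 0)
    intro t
    have h3 := h (y.1 + t * 1, y.2 + t * 0)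
    rw [ev_add, ev_add, he, hf] at h3
    simp only [gc] at h3 h0
    linear_combination h3 - h0
  have hy : u * (2 * y.1 * y.2) + v * (y.1 ^ 2 + 3 * y.2 ^ 2) +
        (q 1 * y.1 + 2 * q 2 * y.2 + q 4) = 0 := by
    apply lin_zero
      (b := u * y.1 + v * (3 * y.2) + q 2 - l * (e 0 * (2 * y.2) + e 2) * (f 0 * (2 * y.2) + f 2))
      (c := v - l * ((e 0 * (2 * y.2) + e 2) * f 0 + (f 0 * (2 * y.2) + f 2) * e 0))
      (d := - l * e 0 * f 0)
    intro t
    have h3 := h (y.1 + t * 0, y.2 + t * 1)
    rw [ev_add, ev_add, he, hf] at h3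
    simp only [gc] at h3 h0
    linear_combination h3 - h0
  have hsing : IsSingularPt (circularForm u v q)
      (fun i => ((![y.1, y.2, 1] : Fin 3 → ℝ) i : ℂ)) := by
    refine ⟨?_, ?_, ?_⟩
    · intro hcon
      have := congrFun hcon 2
      simp at this
    · rw [aeval_real]
      have := eval_form_pt u v q 1 y
      rw [one_mul, one_mul] at this
      rw [this, h0]
      simp
    · intro i
      rw [aeval_real]
      have hgoal : MvPolynomial.eval ![y.1, y.2, 1]
          (MvPolynomial.pderiv i (circularForm u v q)) = 0 := by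
        fin_cases i
        · have := eval_pderiv0 u v q ![y.1, y.2, 1]
          simp only [Fin.zero_eta, Fin.isValue]
          rw [this]
          simp
          linear_combination hx
        · have := eval_pderiv1 u v q ![y.1, y.2, 1]
          simp only [Fin.mk_one, Fin.isValue]
          rw [this]
          simp
          linear_combination hy
        · have := eval_pderiv2 u v q ![y.1, y.2, 1]
          simp only [Fin.reduceFinMk, Fin.isValue]
          rw [this]
          simp only [gc] at h0
          simp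
          linear_combination 3 * h0 - y.1 * hx - y.2 * hy
      rw [hgoal]
      simp
  -- a line in the curve
  obtain ⟨d1, d2, hd, hline⟩ : ∃ d1 d2 : ℝ, (d1 ≠ 0 ∨ d2 ≠ 0) ∧
      ∀ t : ℝ, gc u v q (y.1 + t * d1, y.2 + t * d2) = 0 := by
    have h4 : -(l * e 0 * f 0) = 0 := by
      apply quart_zero (a0 := q 5 - l * e 3 * f 3) (a1 := q 3 - l * (e 1 * f 3 + e 3 * f 1))
        (a2 := q 0 - l * (e 0 * f 3 + e 1 * f 1 + e 3 * f 0))
        (a3 := u - l * (e 0 * f 1 + e 1 * f 0))
      intro t
      have h3 := h (t, 0)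
      simp only [gc, ev] at h3
      linear_combination h3
    have h5 : l * e 0 * f 0 = 0 := by linarith
    rcases mul_eq_zero.1 h5 with h6 | h6
    · rcases mul_eq_zero.1 h6 with h7 | h7
      · refine ⟨1, 0, Or.inl one_ne_zero, fun t => ?_⟩
        rw [h, h7]
        ring
      · refine ⟨-e 2, e 1, ?_, fun t => ?_⟩
        · have := hef.1
          by_contra hcon
          rw [not_or, not_not, not_not] at hcon
          have h8 : e 2 = 0 := by linarith [hcon.1]
          simp only [gm, h7, h8, hcon.2] at this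
          norm_num at this
        · rw [h, ev_add, ev_add, he, hf, h7]
          ring
    · refine ⟨-f 2, f 1, ?_, fun t => ?_⟩
      · have := hef.2.1
        by_contra hcon
        rw [not_or, not_not, not_not] at hcon
        have h8 : f 2 = 0 := by linarith [hcon.1]
        simp only [gm, h6, h8, hcon.2] at this
        norm_num at this
      · rw [h, ev_add, ev_add, he, hf, h6]
        ring
  rintro (hell | ⟨p, hp, huniq, ε, hε, hiso⟩)
  · exact hell _ hsing
  · obtain ⟨s, hs⟩ := huniq _ hsing
    have hs2 := hs 2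
    have hs0 := hs 0
    have hs1 := hs 1
    simp at hs0 hs1 hs2
    have hp2 : p 2 ≠ 0 := by
      intro hcon
      rw [hcon] at hs2
      simp at hs2
    have hp2' : (p 2 : ℂ) ≠ 0 := by exact_mod_cast hp2
    have hs' : s = ((p 2 : ℂ))⁻¹ := by
      field_simp
      exact hs2.symm
    have hp0 : p 0 = p 2 * y.1 := by
      rw [hs'] at hs0
      have : (p 0 : ℂ) = (p 2 : ℂ) * (y.1 : ℂ) := by
        rw [hs0]
        field_simp
      exact_mod_cast this
    have hp1 : p 1 = p 2 * y.2 := by
      rw [hs'] at hs1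
      have : (p 1 : ℂ) = (p 2 : ℂ) * (y.2 : ℂ) := by
        rw [hs1]
        field_simp
      exact_mod_cast this
    -- a point of the line near `p`
    set K : ℝ := 1 + |p 2| * |d1| + |p 2| * |d2| with hK
    have hKpos : 0 < K := by positivity
    set t : ℝ := ε / (2 * K) with ht
    have htpos : 0 < t := by positivity
    have htK : t * K < ε := by
      have : t * K = ε / 2 := by
        rw [ht]
        field_simp
      rw [this]
      linarith
    have hz := hiso ![p 2 * (y.1 + t * d1), p 2 * (y.2 + t * d2), p 2] (by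
      intro i
      fin_cases i
      · have : p 2 * (y.1 + t * d1) - p 0 = t * (p 2 * d1) := by
          rw [hp0]
          ring
        simp only [Fin.zero_eta, Fin.isValue, Matrix.cons_val_zero]
        rw [this, abs_mul, abs_mul, abs_of_pos htpos]
        have : |p 2| * |d1| ≤ K := by
          rw [hK]
          have := mul_nonneg (abs_nonneg (p 2)) (abs_nonneg d2)
          linarith
        nlinarith
      · have : p 2 * (y.2 + t * d2) - p 1 = t * (p 2 * d2) := by
          rw [hp1]
          ring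
        simp only [Fin.mk_one, Fin.isValue, Matrix.cons_val_one, Matrix.cons_val_zero]
        rw [this, abs_mul, abs_mul, abs_of_pos htpos]
        have : |p 2| * |d2| ≤ K := by
          rw [hK]
          have := mul_nonneg (abs_nonneg (p 2)) (abs_nonneg d1)
          linarith
        nlinarith
      · simp only [Fin.reduceFinMk, Fin.isValue, Matrix.cons_val]
        simpa using hε) (by
      have := eval_form_pt u v q (p 2) (y.1 + t * d1, y.2 + t * d2)
      simp only at this
      rw [this, hline]
      ring)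
    obtain ⟨s', hs'⟩ := hz
    have ha := hs' 2
    have hb := hs' 0
    have hc := hs' 1
    simp only [Fin.isValue, Matrix.cons_val, Matrix.cons_val_zero, Matrix.cons_val_one] at ha hb hc
    have hs1' : s' = 1 := by
      have : (s' - 1) * p 2 = 0 := by linarith
      rcases mul_eq_zero.1 this with h | h
      · linarith
      · exact absurd h hp2
    rw [hs1', hp0] at hb
    rw [hs1', hp1] at hc
    have hb' : p 2 * t * d1 = 0 := by linarith
    have hc' : p 2 * t * d2 = 0 := by linarith
    have hpt : p 2 * t ≠ 0 := mul_ne_zero hp2 htpos.ne'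
    rcases hd with hd | hd
    · exact hd ((mul_eq_zero.1 hb').resolve_left hpt)
    · exact hd ((mul_eq_zero.1 hc').resolve_left hpt)

lemma mem_cubic {u v : ℝ} {q : Fin 6 → ℝ} {x : Pt}
    (hx : MvPolynomial.eval ![x.1, x.2, 1] (circularForm u v q) = 0) : gc u v q x = 0 := by
  have := eval_form_pt u v q 1 x
  rw [one_mul, one_mul, hx] at this
  linarith

lemma not_cubic {Γ S : Set Pt} (hP : ∀ i, P i ∈ S) (hΓ : IsGoodCubic Γ) :
    ¬ LiesUpToInversion S Γ := by
  intro hS
  obtain ⟨u, v, q, hgood, rfl⟩ := hΓ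
  obtain ⟨N, hN, h⟩ := lies (A := mc u v q) Conf.one (by
      intro x hx
      rw [Matrix.one_mulVec, qf_mc]
      exact mem_cubic hx) hP hS
  obtain ⟨l, e, f, hef, hl⟩ := key hN h
  refine cubic_contra (u := u) (v := v) (q := q) (l := l) hef ?_ hgood
  intro y
  rw [← qf_mc, hl]

lemma inversion_inversion {c x : Pt} {k : ℝ} (hk : 0 < k) (h : x ≠ c) :
    inversion c k (inversion c k x) = x := by
  have hd : dsq x c ≠ 0 := (dsq_pos h).ne'
  have hd' : dsq (inversion c k x) c = k ^ 4 / dsq x c := by
    have : dsq (inversion c k x) c = (k ^ 2 / dsq x c) ^ 2 * dsq x c := by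
      simp only [inversion]
      simp only [dsq]
      ring
    rw [this]
    field_simp
  ext
  · simp only [inversion] at hd' ⊢
    rw [hd']
    have hk' : k ≠ 0 := hk.ne'
    field_simp
    ring
  · simp only [inversion] at hd' ⊢
    rw [hd']
    have hk' : k ≠ 0 := hk.ne'
    field_simp
    ring

lemma not_quartic {Γ S : Set Pt} (hP : ∀ i, P i ∈ S) (hΓ : IsGoodQuartic Γ) :
    ¬ LiesUpToInversion S Γ := by
  intro hS
  obtain ⟨Δ, c, k, ⟨u, v, q, hgood, rfl⟩, hk, hc, rfl⟩ := hΓ
  obtain ⟨N, hN, h⟩ := lies (A := mc u v q) (Conf.inv c (m := k ^ 2) (by positivity)) (by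
      intro x hx
      rcases hx with rfl | ⟨z, hz, rfl⟩
      · have : mi x (k ^ 2) *ᵥ vec x = ![(k ^ 2) ^ 2, 0, 0, 0] := by
          ext i
          fin_cases i <;>
            simp [vec, mi, Matrix.mulVec, dotProduct, Fin.sum_univ_four] <;> ring
        rw [this, qf_expand]
        simp [mc]
      · have hzc : z ≠ c := by
          rintro rfl
          exact hc hz
        have h1 : inversion c k z ≠ c := by
          intro h2
          have h3 : dsq (inversion c k z) c = (k ^ 2 / dsq z c) ^ 2 * dsq z c := by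
            simp only [inversion]
            simp only [dsq]
            ring
          have h4 : dsq (inversion c k z) c = 0 := by
            rw [h2]
            simp [dsq]
          rw [h4] at h3
          have := dsq_pos hzc
          have h5 : 0 < (k ^ 2 / dsq z c) ^ 2 * dsq z c := by positivity
          linarith
        have h2 := vec_inversion k h1
        rw [inversion_inversion hk hzc] at h2
        have h3 : gc u v q z = 0 := mem_cubic hz
        rw [← qf_mc, h2, qf_smul] at h3
        rcases mul_eq_zero.1 h3 with h4 | h4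
        · have : (1 / dsq (inversion c k z) c) ≠ 0 := by
            have := dsq_pos h1
            positivity
          exact absurd h4 (pow_ne_zero 2 this)
        · exact h4) hP hS
  obtain ⟨l, e, f, hef, hl⟩ := key hN h
  refine cubic_contra (u := u) (v := v) (q := q) (l := l) hef ?_ hgood
  intro y
  rw [← qf_mc, hl]

end Pool.Agent.Q80.MC
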