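import Pool.Agent.Q80.MC.Inter

/-!
The curves of the problem, and why the eight points lie on none of them.
-/

set_option autoImplicit false

namespace Pool.Agent.Q80.MC

open Matrix

/-- `Γ` is an ellipse. -/
def IsEllipse (Γ : Set Pt) : Prop :=
  ∃ (p : Pt) (a b c : ℝ), 0 < a ∧ 0 < a * c - b ^ 2 ∧
    Γ = {x : Pt | a * (x.1 - p.1) ^ 2 + 2 * b * (x.1 - p.1) * (x.2 - p.2) +
      c * (x.2 - p.2) ^ 2 = 1}

/-- `Γ` is the union of two disjoint circles. -/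
def IsTwoDisjointCircles (Γ : Set Pt) : Prop :=
  ∃ C D : Set Pt, IsCircle C ∧ IsCircle D ∧ Disjoint C D ∧ Γ = C ∪ D

/-- The ternary form `(u x + v y)(x ^ 2 + y ^ 2) + q(x, y, z) z` with the quadratic form
`q = q₀ x² + q₁ xy + q₂ y² + q₃ xz + q₄ yz + q₅ z²`; here `x = X 0`, `y = X 1`, `z = X 2`. -/
noncomputable def circularForm (u v : ℝ) (q : Fin 6 → ℝ) : MvPolynomial (Fin 3) ℝ :=
  (MvPolynomial.C u * MvPolynomial.X 0 + MvPolynomial.C v * MvPolynomial.X 1) *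
      (MvPolynomial.X 0 ^ 2 + MvPolynomial.X 1 ^ 2) +
    (MvPolynomial.C (q 0) * MvPolynomial.X 0 ^ 2 +
        MvPolynomial.C (q 1) * (MvPolynomial.X 0 * MvPolynomial.X 1) +
        MvPolynomial.C (q 2) * MvPolynomial.X 1 ^ 2 +
        MvPolynomial.C (q 3) * (MvPolynomial.X 0 * MvPolynomial.X 2) +
        MvPolynomial.C (q 4) * (MvPolynomial.X 1 * MvPolynomial.X 2) +
        MvPolynomial.C (q 5) * MvPolynomial.X 2 ^ 2) * MvPolynomial.X 2

/-- `w ≠ 0` represents a singular point of the complex projective curve `F = 0`. -/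
def IsSingularPt (F : MvPolynomial (Fin 3) ℝ) (w : Fin 3 → ℂ) : Prop :=
  w ≠ 0 ∧ MvPolynomial.aeval w F = 0 ∧ ∀ i, MvPolynomial.aeval w (MvPolynomial.pderiv i F) = 0

/-- The cubic `F = 0` is elliptic: it has no singular point, real or complex. -/
def IsElliptic (F : MvPolynomial (Fin 3) ℝ) : Prop := ∀ w : Fin 3 → ℂ, ¬ IsSingularPt F w

/-- The cubic `F = 0` is acnodal: it has exactly one singular point, real or complex, and this
point is real and isolated in the real projective curve. -/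
def IsAcnodal (F : MvPolynomial (Fin 3) ℝ) : Prop :=
  ∃ p : Fin 3 → ℝ, IsSingularPt F (fun i => (p i : ℂ)) ∧
    (∀ w : Fin 3 → ℂ, IsSingularPt F w → ∃ s : ℂ, ∀ i, w i = s * (p i : ℂ)) ∧
    ∃ ε : ℝ, 0 < ε ∧ ∀ z : Fin 3 → ℝ, (∀ i, |z i - p i| < ε) → MvPolynomial.eval z F = 0 →
      ∃ s : ℝ, ∀ i, z i = s * p i

/-- `Δ` is the set of affine real points of a circular cubic which is elliptic or acnodal. -/
def IsGoodCubic (Δ : Set Pt) : Prop :=
  ∃ (u v : ℝ) (q : Fin 6 → ℝ), (IsElliptic (circularForm u v q) ∨ IsAcnodal (circularForm u v q)) ∧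
    Δ = {x : Pt | MvPolynomial.eval ![x.1, x.2, 1] (circularForm u v q) = 0}

/-- `Γ` is a bicircular quartic of elliptic or acnodal type: the image of a circular elliptic or
acnodal cubic `Δ` under an inversion with centre `c ∉ Δ`. The centre `c`, the image of the point at
infinity of the cubic, is included. -/
def IsGoodQuartic (Γ : Set Pt) : Prop :=
  ∃ (Δ : Set Pt) (c : Pt) (k : ℝ), IsGoodCubic Δ ∧ 0 < k ∧ c ∉ Δ ∧
    Γ = insert c (inversion c k '' Δ)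

/-- `S` lies up to inversion on `Γ`. -/
def LiesUpToInversion (S Γ : Set Pt) : Prop :=
  S ⊆ Γ ∨ ∃ (c : Pt) (k : ℝ), 0 < k ∧ c ∉ S ∧ inversion c k '' S ⊆ Γ

lemma lin_zero {a b c d : ℝ} (h : ∀ t : ℝ, a * t + b * t ^ 2 + c * t ^ 3 + d * t ^ 4 = 0) :
    a = 0 := by
  have h1 := h 1
  have h2 := h (-1)
  have h3 := h 2
  have h4 := h (-2)
  linarith

lemma quart_zero {a0 a1 a2 a3 a4 : ℝ}
    (h : ∀ t : ℝ, a0 + a1 * t + a2 * t ^ 2 + a3 * t ^ 3 + a4 * t ^ 4 = 0) : a4 = 0 := by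
  have h0 := h 0
  have h1 := h 1
  have h2 := h (-1)
  have h3 := h 2
  have h4 := h (-2)
  linarith

lemma ev_add (e : Fin 4 → ℝ) (y : Pt) (d1 d2 t : ℝ) :
    ev e (y.1 + t * d1, y.2 + t * d2) = ev e y +
      t * (e 0 * (2 * (y.1 * d1 + y.2 * d2)) + e 1 * d1 + e 2 * d2) +
      t ^ 2 * (e 0 * (d1 ^ 2 + d2 ^ 2)) := by
  simp only [ev]
  ring

lemma lies {A N₀ : Matrix (Fin 4) (Fin 4) ℝ} {Γ S : Set Pt} (hN : Conf N₀)
    (h : ∀ x ∈ Γ, qf A (N₀ *ᵥ vec x) = 0) (hP : ∀ i, P i ∈ S) (hS : LiesUpToInversion S Γ) :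
    ∃ N, Conf N ∧ ∀ i, qf A (N *ᵥ vec (P i)) = 0 := by
  rcases hS with hS | ⟨c, k, hk, hc, hS⟩
  · exact ⟨N₀, hN, fun i => h _ (hS (hP i))⟩
  · refine ⟨N₀ * mi c (k ^ 2), hN.mul (Conf.inv c (by positivity)), fun i => ?_⟩
    have h1 : P i ≠ c := fun h => hc (h ▸ hP i)
    have h2 := h _ (hS ⟨P i, hP i, rfl⟩)
    rw [vec_inversion k h1, Matrix.mulVec_smul, qf_smul, Matrix.mulVec_mulVec] at h2
    rcases mul_eq_zero.1 h2 with h3 | h3
    · have : (1 / dsq (P i) c) ≠ 0 := by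
        have := dsq_pos h1
        positivity
      exact absurd h3 (pow_ne_zero 2 this)
    · exact h3

lemma not_ellipse {Γ S : Set Pt} (hP : ∀ i, P i ∈ S) (hΓ : IsEllipse Γ) :
    ¬ LiesUpToInversion S Γ := by
  intro hS
  obtain ⟨p, a, b, c, ha, hac, rfl⟩ := hΓ
  obtain ⟨N, hN, h⟩ := lies (A := !![0, 0, 0, 0; 0, a, b, -(a * p.1 + b * p.2);
    0, b, c, -(b * p.1 + c * p.2); 0, -(a * p.1 + b * p.2), -(b * p.1 + c * p.2),
    a * p.1 ^ 2 + 2 * b * p.1 * p.2 + c * p.2 ^ 2 - 1]) Conf.one (by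
      intro x hx
      have hx' : a * (x.1 - p.1) ^ 2 + 2 * b * (x.1 - p.1) * (x.2 - p.2) +
        c * (x.2 - p.2) ^ 2 = 1 := hx
      rw [Matrix.one_mulVec, qf_expand]
      simp [vec]
      linear_combination hx') hP hS
  obtain ⟨l, e, f, hef, hl⟩ := key hN h
  obtain ⟨y, he, hf⟩ := hef.exists
  have hl' : ∀ z : Pt, a * (z.1 - p.1) ^ 2 + 2 * b * (z.1 - p.1) * (z.2 - p.2) +
        c * (z.2 - p.2) ^ 2 - 1 = l * ev e z * ev f z := by
    intro z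
    rw [← hl z, qf_expand]
    simp [vec]
    ring
  have h0 := hl' y
  rw [he, mul_zero, zero_mul] at h0
  set E1 : ℝ := e 0 * (2 * (y.1 * (y.1 - p.1) + y.2 * (y.2 - p.2))) + e 1 * (y.1 - p.1) +
    e 2 * (y.2 - p.2) with hE1
  set E2 : ℝ := e 0 * ((y.1 - p.1) ^ 2 + (y.2 - p.2) ^ 2) with hE2
  set F1 : ℝ := f 0 * (2 * (y.1 * (y.1 - p.1) + y.2 * (y.2 - p.2))) + f 1 * (y.1 - p.1) +
    f 2 * (y.2 - p.2) with hF1
  set F2 : ℝ := f 0 * ((y.1 - p.1) ^ 2 + (y.2 - p.2) ^ 2) with hF2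
  have h2 : (2 : ℝ) = 0 := by
    apply lin_zero (b := 1 - l * E1 * F1) (c := -l * (E1 * F2 + E2 * F1)) (d := -l * E2 * F2)
    intro t
    have h3 := hl' (y.1 + t * (y.1 - p.1), y.2 + t * (y.2 - p.2))
    rw [ev_add, ev_add, he, hf, ← hE1, ← hE2, ← hF1, ← hF2] at h3
    simp only at h3
    linear_combination h3 - (1 + t) ^ 2 * h0
  norm_num at h2

lemma not_circles {Γ S : Set Pt} (hP : ∀ i, P i ∈ S) (hΓ : IsTwoDisjointCircles Γ) :
    ¬ LiesUpToInversion S Γ := by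
  intro hS
  obtain ⟨C, D, ⟨p, r, hr, rfl⟩, ⟨q, s, hs, rfl⟩, hdisj, rfl⟩ := hΓ
  set A : Matrix (Fin 4) (Fin 4) ℝ := Matrix.vecMulVec
    ![1, -2 * p.1, -2 * p.2, p.1 ^ 2 + p.2 ^ 2 - r ^ 2]
    ![1, -2 * q.1, -2 * q.2, q.1 ^ 2 + q.2 ^ 2 - s ^ 2] with hA
  have hqf : ∀ x : Pt, qf A (vec x) = (dsq x p - r ^ 2) * (dsq x q - s ^ 2) := by
    intro x
    rw [qf_expand, hA]
    simp [vec, Matrix.vecMulVec, dsq]
    ring
  obtain ⟨N, hN, h⟩ := lies (A := A) Conf.one (by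
      intro x hx
      rw [Matrix.one_mulVec, hqf]
      rcases hx with hx | hx
      · have : dsq x p = r ^ 2 := hx
        rw [this]
        ring
      · have : dsq x q = s ^ 2 := hx
        rw [this]
        ring) hP hS
  obtain ⟨l, e, f, hef, hl⟩ := key hN h
  obtain ⟨y, he, hf⟩ := hef.exists
  have hl' : ∀ x : Pt, (dsq x p - r ^ 2) * (dsq x q - s ^ 2) = l * ev e x * ev f x := by
    intro x
    rw [← hqf, hl]
  have h0 := hl' y
  rw [he, mul_zero, zero_mul] at h0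
  -- the general contradiction
  have gen : ∀ (p q : Pt) (r s : ℝ), 0 < r →
      (∀ x : Pt, (dsq x p - r ^ 2) * (dsq x q - s ^ 2) = l * ev e x * ev f x) →
      dsq y p = r ^ 2 → dsq y q = s ^ 2 := by
    intro p q r s hr hl' h1
    set E1 : ℝ := e 0 * (2 * (y.1 * (y.1 - p.1) + y.2 * (y.2 - p.2))) + e 1 * (y.1 - p.1) +
      e 2 * (y.2 - p.2) with hE1
    set E2 : ℝ := e 0 * ((y.1 - p.1) ^ 2 + (y.2 - p.2) ^ 2) with hE2
    set F1 : ℝ := f 0 * (2 * (y.1 * (y.1 - p.1) + y.2 * (y.2 - p.2))) + f 1 * (y.1 - p.1) +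
      f 2 * (y.2 - p.2) with hF1
    set F2 : ℝ := f 0 * ((y.1 - p.1) ^ 2 + (y.2 - p.2) ^ 2) with hF2
    set D1 : ℝ := 2 * ((y.1 - q.1) * (y.1 - p.1) + (y.2 - q.2) * (y.2 - p.2)) with hD1
    set D2 : ℝ := (y.1 - p.1) ^ 2 + (y.2 - p.2) ^ 2 with hD2
    have h2 : 2 * r ^ 2 * (dsq y q - s ^ 2) = 0 := by
      apply lin_zero (b := r ^ 2 * (dsq y q - s ^ 2) + 2 * r ^ 2 * D1 - l * E1 * F1)
        (c := r ^ 2 * D1 + 2 * r ^ 2 * D2 - l * (E1 * F2 + E2 * F1))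
        (d := r ^ 2 * D2 - l * E2 * F2)
      intro t
      have h3 := hl' (y.1 + t * (y.1 - p.1), y.2 + t * (y.2 - p.2))
      rw [ev_add, ev_add, he, hf, ← hE1, ← hE2, ← hF1, ← hF2] at h3
      have h4 : dsq (y.1 + t * (y.1 - p.1), y.2 + t * (y.2 - p.2)) p = (1 + t) ^ 2 * r ^ 2 := by
        rw [← h1]
        simp only [dsq]
        ring
      have h5 : dsq (y.1 + t * (y.1 - p.1), y.2 + t * (y.2 - p.2)) q =
          dsq y q + t * D1 + t ^ 2 * D2 := by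
        simp only [dsq, hD1, hD2]
        ring
      rw [h4, h5] at h3
      linear_combination h3
    have h6 : (2 * r ^ 2 : ℝ) ≠ 0 := by positivity
    linarith [(mul_eq_zero.1 h2).resolve_left h6]
  rcases mul_eq_zero.1 h0 with h1 | h1
  · have h2 : dsq y p = r ^ 2 := by linarith
    exact Set.disjoint_left.1 hdisj (show y ∈ circ p r from h2) (gen p q r s hr hl' h2)
  · have h2 : dsq y q = s ^ 2 := by linarith
    refine Set.disjoint_left.1 hdisj (gen q p s r hs ?_ h2) (show y ∈ circ q s from h2)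
    intro x
    rw [← hl' x]
    ring

end Pool.Agent.Q80.MC
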