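import Pool.Agent.Q80.MC.Basic

/-!
Pairs of circles which meet, and their images under inversions.
-/

set_option autoImplicit false

namespace Pool.Agent.Q80.MC

open Matrix

/-- the value at a point of the equation of a circle or line -/
def ev (e : Fin 4 → ℝ) (y : Pt) : ℝ := e 0 * (y.1 ^ 2 + y.2 ^ 2) + e 1 * y.1 + e 2 * y.2 + e 3

lemma ev_eq (e : Fin 4 → ℝ) (y : Pt) : ev e y = e ⬝ᵥ vec y := by
  simp [ev, vec, dotProduct, Fin.sum_univ_four]

/-- the two circles or lines meet in two points -/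
def Meet (e f : Fin 4 → ℝ) : Prop := 0 < gm e e ∧ 0 < gm f f ∧ gm e f ^ 2 < gm e e * gm f f

lemma Meet.symm {e f : Fin 4 → ℝ} (h : Meet e f) : Meet f e := by
  have : gm f e = gm e f := by
    simp only [gm]
    ring
  refine ⟨h.2.1, h.1, ?_⟩
  rw [this, mul_comm]
  exact h.2.2

lemma Meet.exists_of_ne {e f : Fin 4 → ℝ} (h : Meet e f) (he : e 0 ≠ 0) :
    ∃ y : Pt, ev e y = 0 ∧ ev f y = 0 := by
  obtain ⟨h1, h2, h3⟩ := h
  set g1 : ℝ := f 0 * e 1 - e 0 * f 1 with hg1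
  set g2 : ℝ := f 0 * e 2 - e 0 * f 2 with hg2
  set g3 : ℝ := f 0 * e 3 - e 0 * f 3 with hg3
  set N : ℝ := g1 ^ 2 + g2 ^ 2 with hN
  have e1 : N = f 0 ^ 2 * gm e e - 2 * (e 0 * f 0) * gm e f + e 0 ^ 2 * gm f f := by
    simp only [hN, hg1, hg2, gm]
    ring
  have hdet : 0 < gm e e * gm f f - gm e f ^ 2 := by linarith
  have he2 := sq_pos_of_ne_zero he
  have hNpos : 0 < N := by
    have h4 : gm e e * N = (f 0 * gm e e - e 0 * gm e f) ^ 2 +
        e 0 ^ 2 * (gm e e * gm f f - gm e f ^ 2) := by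
      rw [e1]
      ring
    have h5 : 0 < gm e e * N := by
      rw [h4]
      positivity
    exact pos_of_mul_pos_right h5 h1.le
  -- the discriminant
  set y1 : ℝ := -(g3 * g1) / N with hy1
  set y2 : ℝ := -(g3 * g2) / N with hy2
  set a : ℝ := e 0 * N with ha
  set b : ℝ := e 2 * g1 - e 1 * g2 with hb
  set c : ℝ := e 0 * (y1 ^ 2 + y2 ^ 2) + e 1 * y1 + e 2 * y2 + e 3 with hc
  have hdisc : b ^ 2 - 4 * a * c = e 0 ^ 2 * (gm e e * gm f f - gm e f ^ 2) := by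
    have h6 : N * c = e 0 * g3 ^ 2 - g3 * (e 1 * g1 + e 2 * g2) + e 3 * N := by
      rw [hc, hy1, hy2]
      have hN0 : N ≠ 0 := hNpos.ne'
      field_simp
      rw [hN]
      ring
    have h7 : b ^ 2 - 4 * a * c = b ^ 2 - 4 * e 0 * (N * c) := by
      rw [ha]
      ring
    rw [h7, h6, hb, hN, hg1, hg2, hg3]
    simp only [gm]
    ring
  have hd0 : 0 ≤ b ^ 2 - 4 * a * c := by
    rw [hdisc]
    positivity
  set s : ℝ := Real.sqrt (b ^ 2 - 4 * a * c) with hs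
  have hss : s ^ 2 = b ^ 2 - 4 * a * c := Real.sq_sqrt hd0
  have ha0 : a ≠ 0 := mul_ne_zero he hNpos.ne'
  set τ : ℝ := (-b + s) / (2 * a) with hτ
  have hroot : a * τ ^ 2 + b * τ + c = 0 := by
    have h8 : 2 * a * τ = -b + s := by
      rw [hτ]
      field_simp
    have h9 : 4 * a * (a * τ ^ 2 + b * τ + c) = 0 := by
      have : 4 * a * (a * τ ^ 2 + b * τ + c) = (2 * a * τ + b) ^ 2 - (b ^ 2 - 4 * a * c) := by
        ring
      rw [this, h8, ← hss]
      ring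
    rcases mul_eq_zero.1 h9 with h10 | h10
    · exact absurd h10 (mul_ne_zero (by norm_num) ha0)
    · exact h10
  have hyg : g1 * (y1 - τ * g2) + g2 * (y2 + τ * g1) + g3 = 0 := by
    have hN0 : N ≠ 0 := hNpos.ne'
    have h11 : g1 * y1 + g2 * y2 = -g3 := by
      rw [hy1, hy2]
      field_simp
      rw [hN]
      ring
    linear_combination h11
  have hort : y2 * g1 - y1 * g2 = 0 := by
    rw [hy1, hy2]
    ring
  have hee : ev e (y1 - τ * g2, y2 + τ * g1) = 0 := by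
    have : ev e (y1 - τ * g2, y2 + τ * g1) =
        a * τ ^ 2 + b * τ + c + 2 * e 0 * τ * (y2 * g1 - y1 * g2) := by
      simp only [ev]
      rw [ha, hb, hc, hN]
      ring
    rw [this, hroot, hort]
    ring
  refine ⟨(y1 - τ * g2, y2 + τ * g1), hee, ?_⟩
  have h12 : e 0 * ev f (y1 - τ * g2, y2 + τ * g1) =
      f 0 * ev e (y1 - τ * g2, y2 + τ * g1) -
        (g1 * (y1 - τ * g2) + g2 * (y2 + τ * g1) + g3) := by
    simp only [ev, hg1, hg2, hg3]
    ring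
  rw [hee, hyg] at h12
  have h13 : e 0 * ev f (y1 - τ * g2, y2 + τ * g1) = 0 := by
    rw [h12]
    ring
  exact (mul_eq_zero.1 h13).resolve_left he

lemma Meet.exists {e f : Fin 4 → ℝ} (h : Meet e f) : ∃ y : Pt, ev e y = 0 ∧ ev f y = 0 := by
  by_cases he : e 0 = 0
  · by_cases hf : f 0 = 0
    · obtain ⟨h1, h2, h3⟩ := h
      have h4 : (e 1 * f 2 - e 2 * f 1) ^ 2 = gm e e * gm f f - gm e f ^ 2 := by
        simp only [gm, he, hf]
        ring
      have h5 : e 1 * f 2 - e 2 * f 1 ≠ 0 := by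
        intro h6
        rw [h6] at h4
        linarith
      obtain ⟨D, hD⟩ : ∃ D, D = e 1 * f 2 - e 2 * f 1 := ⟨_, rfl⟩
      rw [← hD] at h5
      refine ⟨((e 2 * f 3 - e 3 * f 2) / D, (e 3 * f 1 - e 1 * f 3) / D), ?_, ?_⟩
      · simp only [ev, he, zero_mul, zero_add]
        field_simp
        rw [hD]
        ring
      · simp only [ev, hf, zero_mul, zero_add]
        field_simp
        rw [hD]
        ring
    · obtain ⟨y, h1, h2⟩ := h.symm.exists_of_ne hf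
      exact ⟨y, h2, h1⟩
  · exact h.exists_of_ne he

/-- a matrix which permutes the cone and preserves the form up to a positive factor -/
def Conf (N : Matrix (Fin 4) (Fin 4) ℝ) : Prop :=
  ∃ (N' : Matrix (Fin 4) (Fin 4) ℝ) (κ κ' : ℝ), κ ≠ 0 ∧ 0 < κ' ∧ N * N' = κ • (1 : Matrix _ _ ℝ) ∧
    (∀ w, Cone w → Cone (N' *ᵥ w)) ∧ ∀ e f, gm (N'ᵀ *ᵥ e) (N'ᵀ *ᵥ f) = κ' * gm e f

lemma Conf.one : Conf 1 :=
  ⟨1, 1, 1, one_ne_zero, one_pos, by simp, fun w h => by simpa using h, fun e f => by simp⟩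

lemma Conf.inv (c : Pt) {m : ℝ} (hm : m ≠ 0) : Conf (mi c m) :=
  ⟨mi c m, m ^ 2, m ^ 2, pow_ne_zero 2 hm, by positivity, mi_mi c m, cone_mi c m, gm_mi c m⟩

lemma Conf.mul {N₁ N₂ : Matrix (Fin 4) (Fin 4) ℝ} (h₁ : Conf N₁) (h₂ : Conf N₂) :
    Conf (N₁ * N₂) := by
  obtain ⟨M₁, k₁, l₁, a₁, b₁, c₁, d₁, f₁⟩ := h₁
  obtain ⟨M₂, k₂, l₂, a₂, b₂, c₂, d₂, f₂⟩ := h₂
  refine ⟨M₂ * M₁, k₁ * k₂, l₁ * l₂, mul_ne_zero a₁ a₂, mul_pos b₁ b₂, ?_, ?_, ?_⟩
  · calc N₁ * N₂ * (M₂ * M₁) = N₁ * (N₂ * M₂) * M₁ := by simp only [Matrix.mul_assoc]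
      _ = (k₁ * k₂) • (1 : Matrix _ _ ℝ) := by
        rw [c₂, Matrix.mul_smul, Matrix.mul_one, Matrix.smul_mul, c₁, smul_smul, mul_comm]
  · intro w hw
    rw [← Matrix.mulVec_mulVec]
    exact d₂ _ (d₁ _ hw)
  · intro e f
    rw [Matrix.transpose_mul, ← Matrix.mulVec_mulVec, ← Matrix.mulVec_mulVec, f₁, f₂]
    ring

/-- the first circle through the eight points -/
noncomputable def c1 : Fin 4 → ℝ := ![1, 156, 364 / 3, -54080]

/-- the second circle through the eight points -/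
noncomputable def c2 : Fin 4 → ℝ := ![1, -195, -195 / 4, 0]

lemma meet_c : Meet c1 c2 := by
  refine ⟨?_, ?_, ?_⟩ <;> simp [gm, c1, c2] <;> norm_num

lemma Meet.conf {N' : Matrix (Fin 4) (Fin 4) ℝ} {κ' : ℝ} (hκ : 0 < κ')
    (h : ∀ e f, gm (N'ᵀ *ᵥ e) (N'ᵀ *ᵥ f) = κ' * gm e f) {e f : Fin 4 → ℝ} (hef : Meet e f) :
    Meet (N'ᵀ *ᵥ e) (N'ᵀ *ᵥ f) := by
  obtain ⟨h1, h2, h3⟩ := hef
  refine ⟨?_, ?_, ?_⟩
  · rw [h]
    positivity
  · rw [h]
    positivity
  · rw [h, h, h]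
    have : 0 < κ' ^ 2 := by positivity
    nlinarith

/-- the eight points -/
def P : Fin 8 → Pt :=
  ![(164, 12), (156, -156), (168, 96), (-300, 60), (195, 0), (126, -72), (-104, -312), (0, 0)]

lemma unique_form (A : Matrix (Fin 4) (Fin 4) ℝ) (h : ∀ i, qf A (vec (P i)) = 0) :
    ∃ l : ℝ, ∀ w, Cone w → qf A w = l * (c1 ⬝ᵥ w) * (c2 ⬝ᵥ w) := by
  have h0 := h 0
  have h1 := h 1
  have h2 := h 2
  have h3 := h 3
  have h4 := h 4
  have h5 := h 5
  have h6 := h 6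
  have h7 := h 7
  simp [qf_expand, vec, P] at h0 h1 h2 h3 h4 h5 h6 h7
  refine ⟨A 0 0, fun w hw => ?_⟩
  have q1 : A 0 1 + A 1 0 = -39 * A 0 0 := by
    linear_combination (-7/19235840) * h0 + (1/75019776) * h1 + (1/30296448) * h2 +
      (-11/865612800) * h3 + (1/3663075) * h4 + (-1/23669100) * h5 + (-1/312582400) * h6 +
      (1/9734400) * h7
  have q2 : A 0 2 + A 2 0 = 871 / 12 * A 0 0 := by
    linear_combination (-281/461660160) * h0 + (-193/1800474624) * h1 + (373/2181344256) * h2 +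
      (77/12464824320) * h3 + (1/5274828) * h4 + (349/852087600) * h5 + (-79/7501977600) * h6 +
      (-7/140175360) * h7
  have q3 : A 1 1 + (A 0 3 + A 3 0) = -84500 * A 0 0 := by
    linear_combination (-79/1479680) * h0 + (-475/75019776) * h1 + (-5/6991488) * h2 +
      (871/199756800) * h3 + (632/10989225) * h4 + (1/1092420) * h5 + (19/12503296) * h6 +
      (-113/29203200) * h7
  have q4 : A 1 2 + A 2 1 = -31265 * A 0 0 := by
    linear_combination (-5/34816) * h0 + (-115/2036736) * h1 + (13/822528) * h2 +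
      (-19/4700160) * h3 + (1/9945) * h4 + (1/12852) * h5 + (1/113152) * h6 + (1/898560) * h7
  have q5 : A 2 2 + (A 0 3 + A 3 0) = -59995 * A 0 0 := by
    linear_combination (-73/2959360) * h0 + (9305/450118656) * h1 + (653/13982976) * h2 +
      (977/399513600) * h3 + (-473/10989225) * h4 + (1/60690) * h5 + (-31/125032960) * h6 +
      (-119/6489600) * h7
  have q6 : A 1 3 + A 3 1 = 10545600 * A 0 0 := by
    linear_combination (897/36992) * h0 + (175/240448) * h1 + (-325/291312) * h2 +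
      (-611/1664640) * h3 + (-928/56355) * h4 + (26/18207) * h5 + (-21/120224) * h6 +
      (-31/3744) * h7
  have q7 : A 2 3 + A 3 2 = 2636400 * A 0 0 := by
    linear_combination (429/9248) * h0 + (675/60112) * h1 + (-65/20808) * h2 +
      (169/416160) * h3 + (-112/4335) * h4 + (-26/867) * h5 + (-15/15028) * h6 + (1/520) * h7
  have q8 : A 3 3 = 0 := by
    linear_combination h7
  have hw' : w 0 * w 3 = w 1 ^ 2 + w 2 ^ 2 := hw
  rw [qf_expand]
  simp only [c1, c2, dotProduct, Fin.sum_univ_four, Matrix.cons_val_zero, Matrix.cons_val_one,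
    Matrix.cons_val]
  linear_combination w 0 * w 1 * q1 + w 0 * w 2 * q2 + w 1 ^ 2 * q3 + w 1 * w 2 * q4 +
    w 2 ^ 2 * q5 + w 1 * w 3 * q6 + w 2 * w 3 * q7 + w 3 ^ 2 * q8 +
    (A 0 3 + A 3 0 + 54080 * A 0 0) * hw'

/-- any quadratic form vanishing on a conformal image of the eight points is the product of two
circles which meet -/
lemma key {A N : Matrix (Fin 4) (Fin 4) ℝ} (hN : Conf N)
    (h : ∀ i, qf A (N *ᵥ vec (P i)) = 0) :
    ∃ (l : ℝ) (e f : Fin 4 → ℝ), Meet e f ∧ ∀ y : Pt, qf A (vec y) = l * ev e y * ev f y := by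
  obtain ⟨N', κ, κ', hκ, hκ', hNN, hcone, hgm⟩ := hN
  have h' : ∀ i, qf (Nᵀ * A * N) (vec (P i)) = 0 := by
    intro i
    rw [← qf_mulVec]
    exact h i
  obtain ⟨l, hl⟩ := unique_form _ h'
  refine ⟨l / κ ^ 2, N'ᵀ *ᵥ c1, N'ᵀ *ᵥ c2, meet_c.conf hκ' hgm, fun y => ?_⟩
  have h1 := hl (N' *ᵥ vec y) (hcone _ (cone_vec y))
  rw [← qf_mulVec, Matrix.mulVec_mulVec, hNN, Matrix.smul_mulVec, Matrix.one_mulVec,
    qf_smul] at h1
  have h2 : ∀ e : Fin 4 → ℝ, e ⬝ᵥ (N' *ᵥ vec y) = ev (N'ᵀ *ᵥ e) y := by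
    intro e
    rw [ev_eq, Matrix.mulVec_transpose, Matrix.dotProduct_mulVec]
  rw [h2, h2] at h1
  have h3 : κ ^ 2 ≠ 0 := pow_ne_zero 2 hκ
  field_simp
  linarith

end Pool.Agent.Q80.MC
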