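import Pool.Agent.Q80.MC.Cubic

/-!
The eight points: no monochromatic circle.
-/

set_option autoImplicit false

namespace Pool.Agent.Q80.MC

open Matrix

/-- the red points -/
noncomputable def red : Finset Pt := {(164, 12), (156, -156), (168, 96), (-300, 60)}

/-- the blue points -/
noncomputable def blue : Finset Pt := {(195, 0), (126, -72), (-104, -312), (0, 0)}

lemma P_mem (i : Fin 8) : P i ∈ (↑red ∪ ↑blue : Set Pt) := by
  fin_cases i <;> simp [P, red, blue]

lemma disj : Disjoint red blue := by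
  rw [Finset.disjoint_left]
  intro x hx hy
  simp only [red, blue, Finset.mem_insert, Finset.mem_singleton] at hx hy
  rcases hx with rfl | rfl | rfl | rfl <;> rcases hy with h | h | h | h <;>
    simp only [Prod.mk.injEq] at h <;> norm_num at h

section circles

variable {c : Pt} {r : ℝ}

lemma r123 (h1 : dsq (164, 12) c = r ^ 2) (h2 : dsq (156, -156) c = r ^ 2)
    (h3 : dsq (168, 96) c = r ^ 2) : False := by
  simp only [dsq] at h1 h2 h3
  have : (21216 : ℝ) = 0 := by
    linear_combination h3 - 3 / 2 * h1 + 1 / 2 * h2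
  norm_num at this

lemma r124 (h1 : dsq (164, 12) c = r ^ 2) (h2 : dsq (156, -156) c = r ^ 2)
    (h4 : dsq (-300, 60) c = r ^ 2) : dsq (-104, -312) c = r ^ 2 := by
  simp only [dsq] at h1 h2 h4 ⊢
  linear_combination -13 / 8 * h1 + 25 / 12 * h2 + 13 / 24 * h4

lemma r134 (h1 : dsq (164, 12) c = r ^ 2) (h3 : dsq (168, 96) c = r ^ 2)
    (h4 : dsq (-300, 60) c = r ^ 2) : dsq (126, -72) c = r ^ 2 := by
  simp only [dsq] at h1 h3 h4 ⊢
  linear_combination 63 / 32 * h1 + 7 / 96 * h4 - 25 / 24 * h3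

lemma r234 (h2 : dsq (156, -156) c = r ^ 2) (h3 : dsq (168, 96) c = r ^ 2)
    (h4 : dsq (-300, 60) c = r ^ 2) : dsq (195, 0) c = r ^ 2 := by
  simp only [dsq] at h2 h3 h4 ⊢
  linear_combination 25 / 64 * h2 - 13 / 192 * h4 + 65 / 96 * h3

lemma b123 (h1 : dsq (195, 0) c = r ^ 2) (h2 : dsq (126, -72) c = r ^ 2)
    (h3 : dsq (-104, -312) c = r ^ 2) : False := by
  simp only [dsq] at h1 h2 h3
  have : (143650 : ℝ) = 0 := by
    linear_combination h3 + 10 / 3 * h1 - 13 / 3 * h2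
  norm_num at this

lemma b134 (h1 : dsq (195, 0) c = r ^ 2) (h3 : dsq (-104, -312) c = r ^ 2)
    (h4 : dsq (0, 0) c = r ^ 2) : dsq (164, 12) c = r ^ 2 := by
  simp only [dsq] at h1 h3 h4 ⊢
  linear_combination -1 / 26 * h3 + 32 / 39 * h1 + 17 / 78 * h4

lemma b234 (h2 : dsq (126, -72) c = r ^ 2) (h3 : dsq (-104, -312) c = r ^ 2)
    (h4 : dsq (0, 0) c = r ^ 2) : dsq (156, -156) c = r ^ 2 := by
  simp only [dsq] at h2 h3 h4 ⊢
  linear_combination 9 / 50 * h3 + 104 / 75 * h2 - 17 / 30 * h4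

lemma b124 (h1 : dsq (195, 0) c = r ^ 2) (h2 : dsq (126, -72) c = r ^ 2)
    (h4 : dsq (0, 0) c = r ^ 2) : dsq (168, 96) c = r ^ 2 := by
  simp only [dsq] at h1 h2 h4 ⊢
  linear_combination 112 / 65 * h1 - 4 / 3 * h2 + 119 / 195 * h4

end circles

lemma three_red {c : Pt} {r : ℝ} {x y z : Pt} (hx : x ∈ red) (hy : y ∈ red) (hz : z ∈ red)
    (hxy : x ≠ y) (hxz : x ≠ z) (hyz : y ≠ z) (h1 : dsq x c = r ^ 2) (h2 : dsq y c = r ^ 2)
    (h3 : dsq z c = r ^ 2) : ∃ b ∈ blue, dsq b c = r ^ 2 := by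
  have m1 : ((195, 0) : Pt) ∈ blue := by simp [blue]
  have m2 : ((126, -72) : Pt) ∈ blue := by simp [blue]
  have m3 : ((-104, -312) : Pt) ∈ blue := by simp [blue]
  simp only [red, Finset.mem_insert, Finset.mem_singleton] at hx hy hz
  rcases hx with rfl | rfl | rfl | rfl <;> rcases hy with rfl | rfl | rfl | rfl <;>
    rcases hz with rfl | rfl | rfl | rfl <;>
    first
    | exact absurd rfl hxy
    | exact absurd rfl hxz
    | exact absurd rfl hyz
    | exact (r123 (by assumption) (by assumption) (by assumption)).elim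
    | exact ⟨_, m3, r124 (by assumption) (by assumption) (by assumption)⟩
    | exact ⟨_, m2, r134 (by assumption) (by assumption) (by assumption)⟩
    | exact ⟨_, m1, r234 (by assumption) (by assumption) (by assumption)⟩

lemma three_blue {c : Pt} {r : ℝ} {x y z : Pt} (hx : x ∈ blue) (hy : y ∈ blue) (hz : z ∈ blue)
    (hxy : x ≠ y) (hxz : x ≠ z) (hyz : y ≠ z) (h1 : dsq x c = r ^ 2) (h2 : dsq y c = r ^ 2)
    (h3 : dsq z c = r ^ 2) : ∃ b ∈ red, dsq b c = r ^ 2 := by
  have m1 : ((164, 12) : Pt) ∈ red := by simp [red]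
  have m2 : ((156, -156) : Pt) ∈ red := by simp [red]
  have m3 : ((168, 96) : Pt) ∈ red := by simp [red]
  simp only [blue, Finset.mem_insert, Finset.mem_singleton] at hx hy hz
  rcases hx with rfl | rfl | rfl | rfl <;> rcases hy with rfl | rfl | rfl | rfl <;>
    rcases hz with rfl | rfl | rfl | rfl <;>
    first
    | exact absurd rfl hxy
    | exact absurd rfl hxz
    | exact absurd rfl hyz
    | exact (b123 (by assumption) (by assumption) (by assumption)).elim
    | exact ⟨_, m1, b134 (by assumption) (by assumption) (by assumption)⟩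
    | exact ⟨_, m2, b234 (by assumption) (by assumption) (by assumption)⟩
    | exact ⟨_, m3, b124 (by assumption) (by assumption) (by assumption)⟩

lemma not_mono {C : Set Pt} (hC : IsCircle C) (h : 3 ≤ (C ∩ (↑red ∪ ↑blue)).ncard) :
    (C ∩ ↑red).Nonempty ∧ (C ∩ ↑blue).Nonempty := by
  obtain ⟨c, r, hr, rfl⟩ := hC
  have h3 : 2 < (circ c r ∩ (↑red ∪ ↑blue : Set Pt)).ncard := h
  rw [Set.two_lt_ncard_iff (Set.Finite.inter_of_right
    ((Finset.finite_toSet _).union (Finset.finite_toSet _)) _)] at h3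
  obtain ⟨x, y, z, hx, hy, hz, hxy, hxz, hyz⟩ := h3
  constructor
  · by_contra hcon
    rw [Set.not_nonempty_iff_eq_empty, Set.eq_empty_iff_forall_notMem] at hcon
    have hb : ∀ w ∈ circ c r ∩ (↑red ∪ ↑blue : Set Pt), w ∈ blue := by
      intro w hw
      rcases hw.2 with h | h
      · exact absurd ⟨hw.1, h⟩ (hcon w)
      · exact h
    obtain ⟨b, hb1, hb2⟩ := three_blue (hb x hx) (hb y hy) (hb z hz) hxy hxz hyz hx.1 hy.1 hz.1
    exact hcon b ⟨hb2, hb1⟩
  · by_contra hcon
    rw [Set.not_nonempty_iff_eq_empty, Set.eq_empty_iff_forall_notMem] at hcon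
    have hb : ∀ w ∈ circ c r ∩ (↑red ∪ ↑blue : Set Pt), w ∈ red := by
      intro w hw
      rcases hw.2 with h | h
      · exact h
      · exact absurd ⟨hw.1, h⟩ (hcon w)
    obtain ⟨b, hb1, hb2⟩ := three_red (hb x hx) (hb y hy) (hb z hz) hxy hxz hyz hx.1 hy.1 hz.1
    exact hcon b ⟨hb2, hb1⟩

lemma red_not {C : Set Pt} (hC : IsLine C ∨ IsCircle C) : ¬ (↑red : Set Pt) ⊆ C := by
  intro h
  have m1 : ((164, 12) : Pt) ∈ C := h (by simp [red])
  have m2 : ((156, -156) : Pt) ∈ C := h (by simp [red])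
  have m3 : ((168, 96) : Pt) ∈ C := h (by simp [red])
  have m4 : ((-300, 60) : Pt) ∈ C := h (by simp [red])
  rcases hC with ⟨a, b, d, hab, rfl⟩ | ⟨c, r, hr, rfl⟩
  · have n1 : a * 164 + b * 12 = d := m1
    have n2 : a * 156 + b * (-156) = d := m2
    have n4 : a * (-300) + b * 60 = d := m4
    have ha : a = 0 := by linarith
    have hb : b = 0 := by linarith
    rcases hab with h | h
    · exact h ha
    · exact h hb
  · exact r123 m1 m2 m3

lemma blue_not {C : Set Pt} (hC : IsLine C ∨ IsCircle C) : ¬ (↑blue : Set Pt) ⊆ C := by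
  intro h
  have m1 : ((195, 0) : Pt) ∈ C := h (by simp [blue])
  have m2 : ((126, -72) : Pt) ∈ C := h (by simp [blue])
  have m3 : ((-104, -312) : Pt) ∈ C := h (by simp [blue])
  have m4 : ((0, 0) : Pt) ∈ C := h (by simp [blue])
  rcases hC with ⟨a, b, d, hab, rfl⟩ | ⟨c, r, hr, rfl⟩
  · have n1 : a * 195 + b * 0 = d := m1
    have n2 : a * 126 + b * (-72) = d := m2
    have n4 : a * 0 + b * 0 = d := m4
    have ha : a = 0 := by linarith
    have hb : b = 0 := by linarith
    rcases hab with h | h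
    · exact h ha
    · exact h hb
  · exact b123 m1 m2 m3

lemma card_red : red.card = 4 := by
  unfold red
  rw [Finset.card_insert_of_notMem, Finset.card_insert_of_notMem, Finset.card_insert_of_notMem,
    Finset.card_singleton] <;>
    simp only [Finset.mem_insert, Finset.mem_singleton, Prod.mk.injEq, not_or] <;> norm_num

lemma card_blue : blue.card = 4 := by
  unfold blue
  rw [Finset.card_insert_of_notMem, Finset.card_insert_of_notMem, Finset.card_insert_of_notMem,
    Finset.card_singleton] <;>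
    simp only [Finset.mem_insert, Finset.mem_singleton, Prod.mk.injEq, not_or] <;> norm_num

/-- **The main theorem.** -/
theorem main : ∃ R B : Finset Pt, R.card = 4 ∧ B.card = 4 ∧ Disjoint R B ∧
    (∀ C : Set Pt, IsLine C ∨ IsCircle C → ¬ (↑R ∪ ↑B : Set Pt) ⊆ C) ∧
    (∀ C : Set Pt, IsCircle C → 3 ≤ (C ∩ (↑R ∪ ↑B)).ncard →
      (C ∩ ↑R).Nonempty ∧ (C ∩ ↑B).Nonempty) ∧
    (∀ C : Set Pt, IsLine C ∨ IsCircle C → ¬ (↑R : Set Pt) ⊆ C ∧ ¬ (↑B : Set Pt) ⊆ C) ∧
    ∀ Γ : Set Pt, IsEllipse Γ ∨ IsTwoDisjointCircles Γ ∨ IsGoodCubic Γ ∨ IsGoodQuartic Γ →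
      ¬ LiesUpToInversion (↑R ∪ ↑B) Γ := by
  refine ⟨red, blue, card_red, card_blue, disj, ?_, ?_, ?_, ?_⟩
  · intro C hC h
    exact red_not hC (Set.subset_union_left.trans h)
  · intro C hC h
    exact not_mono hC h
  · intro C hC
    exact ⟨red_not hC, blue_not hC⟩
  · rintro Γ (hΓ | hΓ | hΓ | hΓ)
    · exact not_ellipse P_mem hΓ
    · exact not_circles P_mem hΓ
    · exact not_cubic P_mem hΓ
    · exact not_quartic P_mem hΓ

end Pool.Agent.Q80.MC
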